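import Mathlib

/-!
# Definitions for MP_9e9eb1_al: real tensors, `B_0` tensors and H-eigenvalues

The order of a tensor is written `m = k + 1`, so that the `i`th row is indexed by
`(i_2, ..., i_m)`, a function `Fin k → Fin n`.
-/

namespace Pool.Agent.Lib.MP_9e9eb1_al

open Finset

/-- A real tensor of order `m` and dimension `n`: a real number for each multi-index
`(i_1, ..., i_m)` with entries in `{1, ..., n}`. -/
abbrev Tensor (m n : ℕ) : Type := (Fin m → Fin n) → ℝ

/-- A tensor is symmetric if its entries are unchanged under permutations of the indices. -/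
def IsSymmetric {m n : ℕ} (A : Tensor m n) : Prop :=
  ∀ (σ : Equiv.Perm (Fin m)) (i : Fin m → Fin n), A (i ∘ σ) = A i

/-- The sum `R_i` of all entries of the `i`th row of a tensor of order `k + 1`. -/
def rowSum {k n : ℕ} (A : Tensor (k + 1) n) (i : Fin n) : ℝ :=
  ∑ j : Fin k → Fin n, A (Fin.cons i j : Fin (k + 1) → Fin n)

/-- `B_0` tensors of order `k + 1`: every row sum `R_i` is nonnegative, and `R_i / n ^ k` is at
least every off-diagonal entry of row `i`. -/
def IsB0 {k n : ℕ} (A : Tensor (k + 1) n) : Prop :=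
  ∀ i : Fin n, 0 ≤ rowSum A i ∧
    ∀ j : Fin k → Fin n, j ≠ (fun _ => i) →
      A (Fin.cons i j : Fin (k + 1) → Fin n) ≤ rowSum A i / (n : ℝ) ^ k

/-- The `i`th coordinate of the vector `A x^{m-1}`, for `A` of order `m = k + 1`. -/
def act {k n : ℕ} (A : Tensor (k + 1) n) (x : Fin n → ℝ) (i : Fin n) : ℝ :=
  ∑ j : Fin k → Fin n, A (Fin.cons i j : Fin (k + 1) → Fin n) * ∏ t, x (j t)

/-- `l` is an H-eigenvalue of the tensor `A` of order `m = k + 1`: there is a nonzero real vector
`x` with `A x^{m-1} = l x^{[m-1]}`. -/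
def IsHEigenvalue {k n : ℕ} (A : Tensor (k + 1) n) (l : ℝ) : Prop :=
  ∃ x : Fin n → ℝ, x ≠ 0 ∧ ∀ i, act A x i = l * x i ^ k

end Pool.Agent.Lib.MP_9e9eb1_al
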