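import Pool.Agent.Lib.MP_9e9eb1_al.Defs

namespace Pool.Agent.Lib.MP_9e9eb1_al.NoH

open Finset

/-! ### Building blocks -/

/-- The symmetric tensor whose entry is `1` when one index is `a` and all others are `b`. -/
noncomputable def T {m n : ℕ} (a b : Fin n) : Tensor m n := fun i =>
  ∑ p : Fin m, if i p = a ∧ ∀ q, q ≠ p → i q = b then (1:ℝ) else 0

/-- The diagonal tensor. -/
noncomputable def diag {m n : ℕ} (D : Fin n → ℝ) : Tensor m n := fun i =>
  ∑ j : Fin n, if (∀ q, i q = j) then D j else 0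

lemma T_symm {m n : ℕ} (a b : Fin n) : IsSymmetric (T a b : Tensor m n) := by
  intro σ i
  unfold T
  refine Fintype.sum_equiv σ _ _ fun p => ?_
  refine if_congr ?_ rfl rfl
  constructor
  · rintro ⟨h1, h2⟩
    refine ⟨h1, fun q hq => ?_⟩
    have := h2 (σ.symm q) (fun h => hq (by rw [← h]; simp))
    simpa using this
  · rintro ⟨h1, h2⟩
    exact ⟨h1, fun q hq => h2 (σ q) (fun h => hq (σ.injective h))⟩

lemma diag_symm {m n : ℕ} (D : Fin n → ℝ) : IsSymmetric (diag D : Tensor m n) := by
  intro σ i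
  unfold diag
  refine Finset.sum_congr rfl fun j _ => ?_
  refine if_congr ?_ rfl rfl
  constructor
  · intro h q
    have := h (σ.symm q)
    simpa using this
  · intro h q
    exact h (σ q)

lemma T_nonneg {m n : ℕ} (a b : Fin n) (i : Fin m → Fin n) : 0 ≤ T a b i := by
  unfold T
  exact Finset.sum_nonneg fun p _ => by split_ifs <;> norm_num

lemma T_le_one {m n : ℕ} (a b : Fin n) (hab : a ≠ b) (i : Fin m → Fin n) : T a b i ≤ 1 := by
  unfold T
  by_cases h : ∃ p : Fin m, i p = a ∧ ∀ q, q ≠ p → i q = b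
  · obtain ⟨p, hp⟩ := h
    rw [Finset.sum_eq_single p]
    · rw [if_pos hp]
    · intro q _ hq
      rw [if_neg]
      rintro ⟨h1, -⟩
      exact hab (h1.symm.trans (hp.2 q hq))
    · intro h
      exact absurd (Finset.mem_univ p) h
  · rw [Finset.sum_eq_zero]
    · norm_num
    · intro p _
      rw [if_neg]
      exact fun hp => h ⟨p, hp⟩

lemma act_T {k n : ℕ} (a b : Fin n) (x : Fin n → ℝ) (r : Fin n) :
    act (T a b : Tensor (k + 1) n) x r
      = (if r = a then x b ^ k else 0) + (if r = b then (k:ℝ) * (x a * x b ^ (k - 1)) else 0) := by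
  unfold act T
  have h0 : ∀ f : Fin k → Fin n,
      (∑ p : Fin (k + 1), if (Fin.cons r f : Fin (k + 1) → Fin n) p = a ∧
        ∀ q, q ≠ p → (Fin.cons r f : Fin (k + 1) → Fin n) q = b then (1:ℝ) else 0)
      = (if r = a ∧ f = (fun _ => b) then (1:ℝ) else 0)
        + ∑ t : Fin k, if r = b ∧ f = Function.update (fun _ => b) t a then (1:ℝ) else 0 := by
    intro f
    rw [Fin.sum_univ_succ]
    congr 1
    · refine if_congr ?_ rfl rfl
      constructor
      · rintro ⟨h1, h2⟩
        refine ⟨by simpa using h1, ?_⟩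
        funext t
        have := h2 t.succ (Fin.succ_ne_zero t)
        simpa using this
      · rintro ⟨h1, h2⟩
        refine ⟨by simpa using h1, fun q hq => ?_⟩
        obtain ⟨t, rfl⟩ := Fin.exists_succ_eq.mpr hq
        simp [h2]
    · refine Finset.sum_congr rfl fun t _ => ?_
      refine if_congr ?_ rfl rfl
      constructor
      · rintro ⟨h1, h2⟩
        refine ⟨by simpa using h2 0 (Fin.succ_ne_zero t).symm, ?_⟩
        funext s
        by_cases hst : s = t
        · subst hst
          simpa using h1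
        · have := h2 s.succ (fun h => hst (Fin.succ_injective _ h))
          rw [Function.update_of_ne hst]
          simpa using this
      · rintro ⟨h1, h2⟩
        refine ⟨by simp [h2], fun q hq => ?_⟩
        rcases Fin.eq_zero_or_eq_succ q with rfl | ⟨s, rfl⟩
        · simpa using h1
        · have hst : s ≠ t := fun h => hq (by rw [h])
          simp [h2, Function.update_of_ne hst]
  simp_rw [h0, add_mul, Finset.sum_add_distrib, Finset.sum_mul]
  congr 1
  · rw [Finset.sum_eq_single (fun _ => b)]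
    · by_cases hra : r = a <;> simp [hra]
    · intro f _ hf
      rw [if_neg (fun h => hf h.2), zero_mul]
    · intro h
      exact absurd (Finset.mem_univ _) h
  · rw [Finset.sum_comm]
    have h1 : ∀ t : Fin k, (∑ f : Fin k → Fin n,
        (if r = b ∧ f = Function.update (fun _ => b) t a then (1:ℝ) else 0) * ∏ s, x (f s))
        = if r = b then x a * x b ^ (k - 1) else 0 := by
      intro t
      rw [Finset.sum_eq_single (Function.update (fun _ => b) t a)]
      · have h2 : ∏ s, x (Function.update (fun _ => b) t a s) = x a * x b ^ (k - 1) := by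
          rw [← Finset.mul_prod_erase Finset.univ _ (Finset.mem_univ t)]
          rw [Function.update_self]
          congr 1
          rw [Finset.prod_congr rfl (g := fun _ => x b)]
          · simp
          · intro s hs
            rw [Function.update_of_ne (Finset.ne_of_mem_erase hs)]
        rw [h2]
        by_cases hrb : r = b <;> simp [hrb]
      · intro f _ hf
        rw [if_neg (fun h => hf h.2), zero_mul]
      · intro h
        exact absurd (Finset.mem_univ _) h
    rw [Finset.sum_congr rfl fun t _ => h1 t]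
    by_cases hrb : r = b <;> simp [hrb]

lemma act_diag {k n : ℕ} (D : Fin n → ℝ) (x : Fin n → ℝ) (r : Fin n) :
    act (diag D : Tensor (k + 1) n) x r = D r * x r ^ k := by
  unfold act diag
  have h0 : ∀ f : Fin k → Fin n,
      (∑ j : Fin n, if (∀ q, (Fin.cons r f : Fin (k + 1) → Fin n) q = j) then D j else 0)
      = if f = (fun _ => r) then D r else 0 := by
    intro f
    rw [Finset.sum_eq_single r]
    · refine if_congr ?_ rfl rfl
      constructor
      · intro h
        funext t
        simpa using h t.succ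
      · intro h q
        refine Fin.cases ?_ (fun s => ?_) q
        · simp
        · simp [h]
    · intro j _ hj
      rw [if_neg]
      intro h
      have := h 0
      simp only [Fin.cons_zero] at this
      exact hj this.symm
    · intro h
      exact absurd (Finset.mem_univ _) h
  simp_rw [h0]
  rw [Finset.sum_eq_single (fun _ => r)]
  · simp
  · intro f _ hf
    rw [if_neg hf, zero_mul]
  · intro h
    exact absurd (Finset.mem_univ _) h

lemma act_add {k n : ℕ} (A B : Tensor (k + 1) n) (x : Fin n → ℝ) (r : Fin n) :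
    act (A + B) x r = act A x r + act B x r := by
  unfold act
  rw [← Finset.sum_add_distrib]
  refine Finset.sum_congr rfl fun f _ => ?_
  rw [Pi.add_apply]
  ring

lemma act_sub {k n : ℕ} (A B : Tensor (k + 1) n) (x : Fin n → ℝ) (r : Fin n) :
    act (A - B) x r = act A x r - act B x r := by
  unfold act
  rw [← Finset.sum_sub_distrib]
  refine Finset.sum_congr rfl fun f _ => ?_
  rw [Pi.sub_apply]
  ring

lemma act_sum {k n : ℕ} {ι : Type*} (s : Finset ι) (A : ι → Tensor (k + 1) n)
    (x : Fin n → ℝ) (r : Fin n) :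
    act (∑ j ∈ s, A j) x r = ∑ j ∈ s, act (A j) x r := by
  unfold act
  rw [Finset.sum_comm]
  refine Finset.sum_congr rfl fun f _ => ?_
  rw [Finset.sum_apply, Finset.sum_mul]

/-- The numerical inequality behind the absence of real eigenvectors. -/
lemma key_pos (j : ℕ) (u v : ℝ) (hv : 0 < v) (huv : v ≤ u) :
    ((j:ℝ) + 2) * (u ^ (j + 1) * v ^ (j + 1)) * (u ^ 2 + v ^ 2)
      < u ^ (2 * (j + 2)) + v ^ (2 * (j + 2))
        + (((j:ℝ) + 2) ^ 2 + 1) * (u ^ (j + 2) * v ^ (j + 2)) := by
  have hu : 0 < u := lt_of_lt_of_le hv huv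
  set K : ℝ := (j:ℝ) + 2 with hK
  have hK0 : 0 < K := by positivity
  set P : ℝ := u ^ j with hP
  set Q : ℝ := v ^ j with hQ
  have hP0 : 0 < P := by positivity
  have hQ0 : 0 < Q := by positivity
  have hQP : Q ≤ P := pow_le_pow_left₀ hv.le huv j
  have e1 : u ^ (j + 1) = P * u := by rw [hP]; ring
  have e2 : v ^ (j + 1) = Q * v := by rw [hQ]; ring
  have e3 : u ^ (2 * (j + 2)) = P ^ 2 * u ^ 4 := by rw [hP]; ring
  have e4 : v ^ (2 * (j + 2)) = Q ^ 2 * v ^ 4 := by rw [hQ]; ring
  have e5 : u ^ (j + 2) = P * u ^ 2 := by rw [hP]; ring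
  have e6 : v ^ (j + 2) = Q * v ^ 2 := by rw [hQ]; ring
  rw [e1, e2, e3, e4, e5, e6]
  have h1 : P * Q * u ^ 4 ≤ P ^ 2 * u ^ 4 := by
    have : P * Q ≤ P ^ 2 := by nlinarith
    exact mul_le_mul_of_nonneg_right this (by positivity)
  have h2 : K * (u * v) * (u ^ 2 + v ^ 2) ≤ K * (u * v) * (2 * u ^ 2) := by
    refine mul_le_mul_of_nonneg_left ?_ (by positivity)
    nlinarith
  have h3 : K * (u * v) * (2 * u ^ 2) ≤ u ^ 4 + K ^ 2 * (u ^ 2 * v ^ 2) := by
    nlinarith [mul_nonneg (sq_nonneg u) (sq_nonneg (u - K * v))]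
  have h4 : 0 < P * Q * (u ^ 2 * v ^ 2) := by positivity
  have h5 : 0 < Q ^ 2 * v ^ 4 := by positivity
  have h6 : P * Q * (K * (u * v) * (u ^ 2 + v ^ 2))
      ≤ P * Q * (u ^ 4 + K ^ 2 * (u ^ 2 * v ^ 2)) :=
    mul_le_mul_of_nonneg_left (h2.trans h3) (by positivity)
  nlinarith

lemma key (k : ℕ) (hk : Even k) (hk2 : 2 ≤ k) (a b : ℝ) (ha : a ≠ 0) (hb : b ≠ 0) :
    (k:ℝ) * (a ^ (k - 1) * b ^ (k - 1)) * (a ^ 2 + b ^ 2)
      < a ^ (2 * k) + b ^ (2 * k) + ((k:ℝ) ^ 2 + 1) * (a ^ k * b ^ k) := by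
  obtain ⟨j, rfl⟩ : ∃ j, k = j + 2 := ⟨k - 2, by omega⟩
  have hj : Even j := by
    rcases hk with ⟨c, hc⟩
    exact ⟨c - 1, by omega⟩
  have hjo : Odd (j + 1) := hj.add_one
  rw [show j + 2 - 1 = j + 1 from rfl]
  push_cast
  have e1 : a ^ (2 * (j + 2)) = |a| ^ (2 * (j + 2)) := by
    rw [Even.pow_abs]; exact even_two_mul _
  have e2 : b ^ (2 * (j + 2)) = |b| ^ (2 * (j + 2)) := by
    rw [Even.pow_abs]; exact even_two_mul _
  have e3 : a ^ (j + 2) = |a| ^ (j + 2) := by rw [hk.pow_abs]
  have e4 : b ^ (j + 2) = |b| ^ (j + 2) := by rw [hk.pow_abs]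
  have e5 : a ^ (j + 1) * b ^ (j + 1) ≤ |a| ^ (j + 1) * |b| ^ (j + 1) := by
    rw [← mul_pow, ← mul_pow, ← abs_mul, ← abs_pow]
    exact le_abs_self _
  have e6 : a ^ 2 + b ^ 2 = |a| ^ 2 + |b| ^ 2 := by rw [sq_abs, sq_abs]
  have hle : ((j:ℝ) + 2) * (a ^ (j + 1) * b ^ (j + 1)) * (a ^ 2 + b ^ 2)
      ≤ ((j:ℝ) + 2) * (|a| ^ (j + 1) * |b| ^ (j + 1)) * (|a| ^ 2 + |b| ^ 2) := by
    rw [e6]
    refine mul_le_mul_of_nonneg_right ?_ (by positivity)
    exact mul_le_mul_of_nonneg_left e5 (by positivity)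
  refine lt_of_le_of_lt hle ?_
  rw [e1, e2, e3, e4]
  have ha' : 0 < |a| := abs_pos.mpr ha
  have hb' : 0 < |b| := abs_pos.mpr hb
  rcases le_total |b| |a| with h | h
  · exact key_pos j |a| |b| hb' h
  · have := key_pos j |b| |a| ha' h
    nlinarith [this]

/-- For every odd order `m = k + 1 ≥ 3` and every dimension `n ≥ 2` there is a symmetric `B_0`
tensor without H-eigenvalues. -/
theorem main : ∀ k n : ℕ, Even k → 2 ≤ k → 2 ≤ n →
    ∃ A : Tensor (k + 1) n, IsSymmetric A ∧ IsB0 A ∧ ∀ l : ℝ, ¬ IsHEigenvalue A l := by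
  intro k n hk hk2 hn
  set i0 : Fin n := ⟨0, by omega⟩ with hi0
  set i1 : Fin n := ⟨1, by omega⟩ with hi1
  have h10 : i1 ≠ i0 := by
    intro h
    have := congrArg Fin.val h
    simp [hi0, hi1] at this
  set D : Fin n → ℝ := fun r =>
    (n:ℝ) ^ k + n + k + (if r = i1 then (k:ℝ) ^ 2 + 1 else 0) with hD
  set A : Tensor (k + 1) n := diag D + T i1 i0 - ∑ j ∈ Finset.univ.erase i0, T i0 j with hA
  have hact : ∀ (x : Fin n → ℝ) (r : Fin n), act A x r = D r * x r ^ k
      + ((if r = i1 then x i0 ^ k else 0)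
        + (if r = i0 then (k:ℝ) * (x i1 * x i0 ^ (k - 1)) else 0))
      - ∑ j ∈ Finset.univ.erase i0, ((if r = i0 then x j ^ k else 0)
        + (if r = j then (k:ℝ) * (x i0 * x j ^ (k - 1)) else 0)) := by
    intro x r
    rw [hA, act_sub, act_add, act_diag, act_T, act_sum]
    simp_rw [act_T]
  have hact0 : ∀ x : Fin n → ℝ, act A x i0 = D i0 * x i0 ^ k
      + (k:ℝ) * (x i1 * x i0 ^ (k - 1)) - ∑ j ∈ Finset.univ.erase i0, x j ^ k := by
    intro x
    rw [hact x i0, if_neg h10.symm, if_pos rfl, zero_add]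
    congr 1
    refine Finset.sum_congr rfl fun j hj => ?_
    rw [if_pos rfl, if_neg (Finset.ne_of_mem_erase hj).symm, add_zero]
  have hactr : ∀ (x : Fin n → ℝ) (r : Fin n), r ≠ i0 → act A x r = D r * x r ^ k
      + (if r = i1 then x i0 ^ k else 0) - (k:ℝ) * (x i0 * x r ^ (k - 1)) := by
    intro x r hr
    rw [hact x r, if_neg hr, add_zero]
    congr 1
    rw [Finset.sum_eq_single r]
    · simp [hr]
    · intro j _ hj
      rw [if_neg (Ne.symm hj), add_zero, if_neg hr]
    · intro h
      exact absurd (Finset.mem_erase.mpr ⟨hr, Finset.mem_univ _⟩) h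
  refine ⟨A, ?_, ?_, ?_⟩
  · intro σ i
    rw [hA]
    simp only [Pi.add_apply, Pi.sub_apply, Finset.sum_apply]
    rw [diag_symm D σ i, T_symm i1 i0 σ i]
    congr 1
    exact Finset.sum_congr rfl fun j _ => T_symm i0 j σ i
  · intro r
    have hrow : rowSum A r = act A (fun _ => 1) r := by
      unfold rowSum act
      simp
    have hnk : (1:ℝ) ≤ (n:ℝ) ^ k := one_le_pow₀ (by exact_mod_cast (by omega : 1 ≤ n))
    have hge : (n:ℝ) ^ k ≤ rowSum A r := by
      rw [hrow]
      by_cases hr : r = i0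
      · rw [hr, hact0]
        have hDi : D i0 = (n:ℝ) ^ k + n + k := by
          simp [hD, h10.symm]
        have hc : ∑ j ∈ Finset.univ.erase i0, (1:ℝ) ^ k ≤ n := by
          simp only [one_pow, Finset.sum_const, nsmul_eq_mul, mul_one]
          rw [Finset.card_erase_of_mem (Finset.mem_univ _), Finset.card_univ, Fintype.card_fin]
          exact_mod_cast Nat.sub_le n 1
        rw [hDi]
        simp only [one_pow, mul_one] at hc ⊢
        have hk0 : (0:ℝ) ≤ k := Nat.cast_nonneg k
        linarith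
      · rw [hactr _ r hr]
        have hDi : (n:ℝ) ^ k + n + k ≤ D r := by
          simp only [hD]
          have : (0:ℝ) ≤ (if r = i1 then (k:ℝ) ^ 2 + 1 else 0) := by
            split_ifs <;> positivity
          linarith
        have h1 : (0:ℝ) ≤ (if r = i1 then (1:ℝ) ^ k else 0) := by
          split_ifs <;> simp
        simp only [one_pow, mul_one] at h1 ⊢
        have hn0 : (0:ℝ) ≤ n := Nat.cast_nonneg n
        linarith
    refine ⟨by linarith, fun j hj => ?_⟩
    have h1 : (1:ℝ) ≤ rowSum A r / (n:ℝ) ^ k := by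
      rw [le_div_iff₀ (by linarith)]
      linarith
    refine le_trans ?_ h1
    rw [hA]
    simp only [Pi.add_apply, Pi.sub_apply, Finset.sum_apply]
    have hd : diag D (Fin.cons r j : Fin (k + 1) → Fin n) = 0 := by
      unfold diag
      refine Finset.sum_eq_zero fun s _ => ?_
      rw [if_neg]
      intro h
      apply hj
      have hr : r = s := by simpa using h 0
      funext t
      rw [hr]
      simpa using h t.succ
    have ht := T_le_one i1 i0 h10 (Fin.cons r j : Fin (k + 1) → Fin n)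
    have hs : 0 ≤ ∑ c ∈ Finset.univ.erase i0, T i0 c (Fin.cons r j : Fin (k + 1) → Fin n) :=
      Finset.sum_nonneg fun c _ => T_nonneg _ _ _
    linarith
  · rintro l ⟨x, hx, hl⟩
    have hr0 := hl i0
    have hr1 := hl i1
    rw [hact0] at hr0
    rw [hactr x i1 h10, if_pos rfl] at hr1
    have hk1 : k - 1 ≠ 0 := by omega
    have hk0 : k ≠ 0 := by omega
    by_cases ha : x i0 = 0
    · rw [ha, zero_pow hk0, zero_pow hk1] at hr0
      have hsum : ∑ j ∈ Finset.univ.erase i0, x j ^ k = 0 := by linarith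
      rw [Finset.sum_eq_zero_iff_of_nonneg (fun j _ => hk.pow_nonneg _)] at hsum
      apply hx
      funext j
      by_cases hj : j = i0
      · rw [hj, ha]; rfl
      · have := hsum j (Finset.mem_erase.mpr ⟨hj, Finset.mem_univ _⟩)
        exact pow_eq_zero_iff hk0 |>.mp this
    · by_cases hb : x i1 = 0
      · rw [hb, zero_pow hk0, zero_pow hk1] at hr1
        have : x i0 ^ k = 0 := by linarith
        exact ha (pow_eq_zero_iff hk0 |>.mp this)
      · have hS : x i1 ^ k ≤ ∑ j ∈ Finset.univ.erase i0, x j ^ k :=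
          Finset.single_le_sum (f := fun j => x j ^ k) (fun j _ => hk.pow_nonneg _)
            (Finset.mem_erase.mpr ⟨h10, Finset.mem_univ _⟩)
        have hDd : D i1 = D i0 + ((k:ℝ) ^ 2 + 1) := by
          simp [hD, h10.symm]
        have hkey := key k hk hk2 (x i0) (x i1) ha hb
        set a := x i0
        set b := x i1
        set S := ∑ j ∈ Finset.univ.erase i0, x j ^ k
        have hbk : 0 < b ^ k := hk.pow_pos hb
        have hak : 0 < a ^ k := hk.pow_pos ha
        have e1 : a ^ k = a ^ (k - 1) * a := by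
          rw [← pow_succ]; congr 1; omega
        have e2 : b ^ k = b ^ (k - 1) * b := by
          rw [← pow_succ]; congr 1; omega
        have e3 : a ^ (2 * k) = a ^ k * a ^ k := by rw [two_mul, pow_add]
        have e4 : b ^ (2 * k) = b ^ k * b ^ k := by rw [two_mul, pow_add]
        have m0 : (D i0 * a ^ k + (k:ℝ) * (b * a ^ (k - 1)) - S) * b ^ k
            = l * a ^ k * b ^ k := by rw [hr0]
        have m1 : (D i1 * b ^ k + a ^ k - (k:ℝ) * (a * b ^ (k - 1))) * a ^ k
            = l * b ^ k * a ^ k := by rw [hr1]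
        have m2 : b ^ k * b ^ k ≤ S * b ^ k := mul_le_mul_of_nonneg_right hS hbk.le
        have m3 : (k:ℝ) * (b * a ^ (k - 1)) * b ^ k + (k:ℝ) * (a * b ^ (k - 1)) * a ^ k
            = (k:ℝ) * (a ^ (k - 1) * b ^ (k - 1)) * (a ^ 2 + b ^ 2) := by
          rw [e1, e2]; ring
        rw [hDd] at m1
        rw [e3, e4] at hkey
        nlinarith

end Pool.Agent.Lib.MP_9e9eb1_al.NoH
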