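import Pool.Agent.Lib.MP_9e9eb1_al.Defs

namespace Pool.Agent.Lib.MP_9e9eb1_al.Nonneg

open Finset

/-- By symmetry an off-diagonal entry of row `i` is also an off-diagonal entry of row `f t`. -/
lemma entry_le {k n : ℕ} {A : Tensor (k + 1) n} (hs : IsSymmetric A) (hB : IsB0 A)
    (i : Fin n) (f : Fin k → Fin n) (hf : f ≠ fun _ => i) (t : Fin k) :
    A (Fin.cons i f : Fin (k + 1) → Fin n) ≤ rowSum A (f t) / (n : ℝ) ^ k := by
  have key : (Fin.cons i f : Fin (k + 1) → Fin n) ∘ (Equiv.swap 0 t.succ)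
      = (Fin.cons (f t) (Function.update f t i) : Fin (k + 1) → Fin n) := by
    funext s
    refine Fin.cases ?_ (fun s => ?_) s
    · simp
    · by_cases hst : s = t
      · subst hst
        simp
      · have h1 : (s.succ : Fin (k + 1)) ≠ 0 := Fin.succ_ne_zero s
        have h2 : (s.succ : Fin (k + 1)) ≠ t.succ := fun h => hst (Fin.succ_injective _ h)
        simp [Equiv.swap_apply_of_ne_of_ne h1 h2, Function.update_of_ne hst]
  rw [← hs (Equiv.swap 0 t.succ) (Fin.cons i f), key]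
  refine (hB (f t)).2 _ ?_
  intro h
  apply hf
  have hti : i = f t := by
    have := congrFun h t
    simpa using this
  funext s
  by_cases hst : s = t
  · rw [hst, ← hti]
  · have := congrFun h s
    rw [Function.update_of_ne hst] at this
    rw [this, hti]

/-- The step function `s ↦ ∏_t [s < d_{f t}]`. -/
noncomputable def G {k n : ℕ} (d : Fin n → ℝ) (f : Fin k → Fin n) (s : ℝ) : ℝ :=
  ∏ t, (if s < d (f t) then (1:ℝ) else 0)

lemma ind_nonneg (a s : ℝ) : 0 ≤ (if s < a then (1:ℝ) else 0) := by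
  split_ifs <;> norm_num

lemma ind_le_one (a s : ℝ) : (if s < a then (1:ℝ) else 0) ≤ 1 := by
  split_ifs <;> norm_num

lemma G_nonneg {k n : ℕ} (d : Fin n → ℝ) (f : Fin k → Fin n) (s : ℝ) : 0 ≤ G d f s :=
  Finset.prod_nonneg fun _ _ => ind_nonneg _ _

lemma G_le_one {k n : ℕ} (d : Fin n → ℝ) (f : Fin k → Fin n) (s : ℝ) : G d f s ≤ 1 :=
  Finset.prod_le_one (fun _ _ => ind_nonneg _ _) fun _ _ => ind_le_one _ _

lemma G_anti {k n : ℕ} (d : Fin n → ℝ) (f : Fin k → Fin n) : Antitone (G d f) := by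
  intro a b hab
  refine Finset.prod_le_prod (fun _ _ => ind_nonneg _ _) fun t _ => ?_
  by_cases h : b < d (f t)
  · rw [if_pos h, if_pos (lt_of_le_of_lt hab h)]
  · rw [if_neg h]
    exact ind_nonneg _ _

lemma G_int {k n : ℕ} (d : Fin n → ℝ) (f : Fin k → Fin n) (a b : ℝ) :
    IntervalIntegrable (G d f) MeasureTheory.volume a b :=
  (G_anti d f).intervalIntegrable

/-- Layer cake: the tensor with entries `∫_0^c ∏_t [s < d_{j_t}] ds` contributes
nonnegatively when `k` is even. -/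
lemma layer {k n : ℕ} (hk : Even k) (c : ℝ) (hc : 0 ≤ c) (d : Fin n → ℝ) (x : Fin n → ℝ) :
    0 ≤ ∑ f : Fin k → Fin n, (∫ s in (0:ℝ)..c, G d f s) * ∏ t, x (f t) := by
  have h1 : ∑ f : Fin k → Fin n, (∫ s in (0:ℝ)..c, G d f s) * ∏ t, x (f t)
      = ∫ s in (0:ℝ)..c, ∑ f : Fin k → Fin n, G d f s * ∏ t, x (f t) := by
    rw [intervalIntegral.integral_finsetSum]
    · refine Finset.sum_congr rfl fun f _ => ?_
      rw [intervalIntegral.integral_mul_const]
    · intro f _
      exact (G_int d f 0 c).mul_const _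
  rw [h1]
  refine intervalIntegral.integral_nonneg hc fun s _ => ?_
  have h2 : ∑ f : Fin k → Fin n, G d f s * ∏ t, x (f t)
      = (∑ j : Fin n, (if s < d j then (1:ℝ) else 0) * x j) ^ k := by
    rw [Fintype.sum_pow]
    refine Finset.sum_congr rfl fun f _ => ?_
    rw [Finset.prod_mul_distrib]
    rfl
  rw [h2]
  exact hk.pow_nonneg _

/-- An off-diagonal entry is bounded by the corresponding entry of the layered tensor. -/
lemma le_layer {k n : ℕ} (c : ℝ) (hc : 0 ≤ c) (d : Fin n → ℝ)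
    (f : Fin k → Fin n) (b : ℝ) (hbc : b ≤ c) (hbd : ∀ t, b ≤ d (f t)) :
    b ≤ ∫ s in (0:ℝ)..c, G d f s := by
  rcases le_or_gt b 0 with hb | hb
  · exact hb.trans (intervalIntegral.integral_nonneg hc fun s _ => G_nonneg _ _ _)
  · rw [← intervalIntegral.integral_add_adjacent_intervals (G_int d f 0 b) (G_int d f b c)]
    have h1 : (∫ s in (0:ℝ)..b, (1:ℝ)) ≤ ∫ s in (0:ℝ)..b, G d f s := by
      refine intervalIntegral.integral_mono_on_of_le_Ioo hb.le
        (by simp) (G_int d f 0 b) fun s hs => ?_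
      have : G d f s = 1 := by
        refine Finset.prod_eq_one fun t _ => ?_
        rw [if_pos (lt_of_lt_of_le hs.2 (hbd t))]
      rw [this]
    have h2 : 0 ≤ ∫ s in b..c, G d f s :=
      intervalIntegral.integral_nonneg hbc fun s _ => G_nonneg _ _ _
    have h3 : (∫ s in (0:ℝ)..b, (1:ℝ)) = b := by simp
    linarith

lemma layer_le {k n : ℕ} (c : ℝ) (hc : 0 ≤ c) (d : Fin n → ℝ) (f : Fin k → Fin n) :
    ∫ s in (0:ℝ)..c, G d f s ≤ c := by
  have h1 : (∫ s in (0:ℝ)..c, G d f s) ≤ ∫ s in (0:ℝ)..c, (1:ℝ) :=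
    intervalIntegral.integral_mono_on hc (G_int d f 0 c) (by simp) fun s _ => G_le_one _ _ _
  simpa using h1

/-- At a coordinate of maximal modulus, `B x^{m-1}` is nonnegative. -/
lemma act_nonneg {k n : ℕ} (hk : Even k) {A : Tensor (k + 1) n} (hs : IsSymmetric A)
    (hB : IsB0 A) (x : Fin n → ℝ) (i : Fin n) (hi : ∀ j, |x j| ≤ |x i|) : 0 ≤ act A x i := by
  set d : Fin n → ℝ := fun j => rowSum A j / (n : ℝ) ^ k with hd
  have hn : (0:ℝ) < (n : ℝ) ^ k := by
    have : 0 < n := i.pos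
    positivity
  have hd0 : ∀ j, 0 ≤ d j := fun j => div_nonneg (hB j).1 hn.le
  set w : (Fin k → Fin n) → ℝ := fun f => ∫ s in (0:ℝ)..(d i), G d f s with hw
  have hsplit : act A x i = ∑ f : Fin k → Fin n,
      (A (Fin.cons i f : Fin (k + 1) → Fin n) - w f) * ∏ t, x (f t)
      + ∑ f : Fin k → Fin n, w f * ∏ t, x (f t) := by
    rw [← Finset.sum_add_distrib]
    refine Finset.sum_congr rfl fun f _ => ?_
    ring
  have h2 : 0 ≤ ∑ f : Fin k → Fin n, w f * ∏ t, x (f t) := layer hk (d i) (hd0 i) d x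
  have hX : ∀ f : Fin k → Fin n, ∏ t, x (f t) ≤ |x i| ^ k := by
    intro f
    calc ∏ t, x (f t) ≤ |∏ t, x (f t)| := le_abs_self _
      _ = ∏ t, |x (f t)| := Finset.abs_prod _ _
      _ ≤ ∏ _t : Fin k, |x i| :=
          Finset.prod_le_prod (fun _ _ => abs_nonneg _) fun t _ => hi (f t)
      _ = |x i| ^ k := by simp
  have h3 : ∑ f : Fin k → Fin n, (A (Fin.cons i f : Fin (k + 1) → Fin n) - w f) * |x i| ^ k
      ≤ ∑ f : Fin k → Fin n,
      (A (Fin.cons i f : Fin (k + 1) → Fin n) - w f) * ∏ t, x (f t) := by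
    refine Finset.sum_le_sum fun f _ => ?_
    by_cases hf : f = fun _ => i
    · subst hf
      have : ∏ _t : Fin k, x i = |x i| ^ k := by
        simp [hk.pow_abs]
      rw [this]
    · have hneg : A (Fin.cons i f : Fin (k + 1) → Fin n) - w f ≤ 0 := by
        have := le_layer (d i) (hd0 i) d f (A (Fin.cons i f : Fin (k + 1) → Fin n))
          ((hB i).2 f hf) (fun t => entry_le hs hB i f hf t)
        simp only [hw]
        linarith
      exact mul_le_mul_of_nonpos_left (hX f) hneg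
  have h4 : 0 ≤ ∑ f : Fin k → Fin n,
      (A (Fin.cons i f : Fin (k + 1) → Fin n) - w f) * |x i| ^ k := by
    rw [← Finset.sum_mul]
    refine mul_nonneg ?_ (by positivity)
    rw [Finset.sum_sub_distrib]
    have h5 : ∑ f : Fin k → Fin n, w f ≤ ∑ _f : Fin k → Fin n, d i :=
      Finset.sum_le_sum fun f _ => layer_le (d i) (hd0 i) d f
    have h6 : ∑ _f : Fin k → Fin n, d i = rowSum A i := by
      simp only [Finset.sum_const, Finset.card_univ, Fintype.card_fun, Fintype.card_fin,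
        nsmul_eq_mul, hd]
      push_cast
      field_simp
    have h7 : ∑ f : Fin k → Fin n, A (Fin.cons i f : Fin (k + 1) → Fin n) = rowSum A i := rfl
    rw [h7]
    linarith
  rw [hsplit]
  linarith

/-- Every H-eigenvalue of a symmetric `B_0` tensor of odd order `m = k + 1 ≥ 3` is
nonnegative. -/
theorem main : ∀ k n : ℕ, Even k → 2 ≤ k → ∀ A : Tensor (k + 1) n,
    IsSymmetric A → IsB0 A → ∀ l : ℝ, IsHEigenvalue A l → 0 ≤ l := by
  rintro k n hk - A hs hB l ⟨x, hx, hl⟩
  have hne : (Finset.univ : Finset (Fin n)).Nonempty := by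
    obtain ⟨j, -⟩ := Function.ne_iff.mp hx
    exact ⟨j, Finset.mem_univ j⟩
  obtain ⟨i, -, hi⟩ := Finset.exists_max_image Finset.univ (fun j => |x j|) hne
  have hxi : x i ≠ 0 := by
    intro h0
    obtain ⟨j, hj⟩ := Function.ne_iff.mp hx
    have := hi j (Finset.mem_univ j)
    rw [h0, abs_zero] at this
    exact hj (abs_eq_zero.mp (le_antisymm this (abs_nonneg _)))
  have h1 := act_nonneg hk hs hB x i fun j => hi j (Finset.mem_univ j)
  rw [hl i] at h1
  exact nonneg_of_mul_nonneg_left h1 (hk.pow_pos hxi)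

end Pool.Agent.Lib.MP_9e9eb1_al.Nonneg
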